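import Mathlib

/-!
# Subsets of `Z_3^n` of bounded induced degree
-/

set_option autoImplicit false

namespace Pool.Agent.Results.MP_e7dccd_co.CountingBounds

open Finset

/-- `U ⊆ Z_3^n` has induced degree at most `d`: every vertex of `U` has at most `d` neighbours
(vectors which differ in exactly one coordinate) in `U`. -/
def DegLe {n : ℕ} (d : ℕ) (U : Finset (Fin n → ZMod 3)) : Prop :=
  ∀ x ∈ U, (U.filter fun y => hammingDist x y = 1).card ≤ d

/-- `f(n,d)`: the largest size of a set `U ⊆ Z_3^n` of induced degree at most `d`. -/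
noncomputable def f (n d : ℕ) : ℕ :=
  sSup {k : ℕ | ∃ U : Finset (Fin n → ZMod 3), DegLe d U ∧ U.card = k}

variable {n : ℕ}

/-- the points of `U` on the line through `x` in direction `i` -/
def T (U : Finset (Fin n → ZMod 3)) (i : Fin n) (x : Fin n → ZMod 3) : ℕ :=
  ∑ a : ZMod 3, if Function.update x i a ∈ U then 1 else 0

lemma T_update (U : Finset (Fin n → ZMod 3)) (i : Fin n) (x : Fin n → ZMod 3) (b : ZMod 3) :
    T U i (Function.update x i b) = T U i x := by
  unfold T
  simp only [Function.update_idem]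

lemma T_le (U : Finset (Fin n → ZMod 3)) (i : Fin n) (x : Fin n → ZMod 3) : T U i x ≤ 3 := by
  unfold T
  refine (sum_le_card_nsmul _ _ 1 fun a _ => ?_).trans ?_
  · split_ifs <;> omega
  · simp [ZMod.card]

/-- `(x, a) ↦ (x with a at i, x i)` -/
def e (i : Fin n) : ((Fin n → ZMod 3) × ZMod 3) ≃ ((Fin n → ZMod 3) × ZMod 3) where
  toFun q := (Function.update q.1 i q.2, q.1 i)
  invFun q := (Function.update q.1 i q.2, q.1 i)
  left_inv q := by simp
  right_inv q := by simp

lemma sum_update (i : Fin n) (g : (Fin n → ZMod 3) → ℕ) :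
    ∑ x, ∑ a : ZMod 3, g (Function.update x i a) = 3 * ∑ y, g y := by
  have h1 : ∑ x, ∑ a : ZMod 3, g (Function.update x i a) =
      ∑ q : (Fin n → ZMod 3) × ZMod 3, g (e i q).1 := by
    rw [Fintype.sum_prod_type]
    rfl
  rw [h1, Equiv.sum_comp (e i) (fun q => g q.1), Fintype.sum_prod_type, mul_sum]
  refine sum_congr rfl fun y _ => ?_
  simp [ZMod.card]

lemma sum_T (U : Finset (Fin n → ZMod 3)) (i : Fin n) : ∑ x, T U i x = 3 * U.card := by
  unfold T
  rw [sum_update i (fun y => if y ∈ U then 1 else 0)]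
  congr 1
  simp

lemma sum_T_sq (U : Finset (Fin n → ZMod 3)) (i : Fin n) :
    ∑ x, T U i x * T U i x = 3 * ∑ y ∈ U, T U i y := by
  have h1 : ∑ x, T U i x * T U i x = ∑ x, ∑ a : ZMod 3,
      (fun y => if y ∈ U then T U i y else 0) (Function.update x i a) := by
    refine sum_congr rfl fun x _ => ?_
    nth_rw 1 [T]
    rw [sum_mul]
    refine sum_congr rfl fun a _ => ?_
    simp only
    rw [T_update]
    split_ifs <;> simp
  rw [h1, sum_update i (fun y => if y ∈ U then T U i y else 0)]
  congr 1
  simp

lemma sum_T_le {d : ℕ} {U : Finset (Fin n → ZMod 3)} (hU : DegLe d U) {y : Fin n → ZMod 3}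
    (hy : y ∈ U) : ∑ i, T U i y ≤ n + d := by
  have h1 : ∀ i, T U i y = 1 + ((univ : Finset (ZMod 3)).filter
      fun a => a ≠ y i ∧ Function.update y i a ∈ U).card := by
    intro i
    unfold T
    rw [← card_filter]
    have h2 : (univ : Finset (ZMod 3)).filter (fun a => Function.update y i a ∈ U) =
        insert (y i) ((univ : Finset (ZMod 3)).filter
          fun a => a ≠ y i ∧ Function.update y i a ∈ U) := by
      ext a
      simp only [mem_filter, mem_univ, true_and, mem_insert]
      constructor
      · intro h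
        by_cases h3 : a = y i
        · exact Or.inl h3
        · exact Or.inr ⟨h3, h⟩
      · rintro (rfl | h)
        · rw [Function.update_eq_self]
          exact hy
        · exact h.2
    rw [h2, card_insert_of_notMem (by simp), add_comm]
  simp_rw [h1]
  rw [sum_add_distrib]
  have h3 : ∑ _i : Fin n, 1 = n := by simp
  rw [h3]
  refine Nat.add_le_add_left ?_ n
  refine le_trans ?_ (hU y hy)
  rw [← card_sigma]
  refine card_le_card_of_injOn (fun q => Function.update y q.1 q.2) ?_ ?_
  · rintro ⟨i, a⟩ hq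
    simp only [coe_sigma, Set.mem_sigma_iff, mem_coe, mem_filter, mem_univ, true_and] at hq
    simp only [coe_filter, Set.mem_ofPred_eq]
    refine ⟨hq.2, ?_⟩
    unfold hammingDist
    rw [card_eq_one]
    refine ⟨i, ?_⟩
    ext j
    simp only [mem_filter, mem_univ, true_and, mem_singleton]
    constructor
    · intro h
      by_contra hne
      rw [Function.update_of_ne hne] at h
      exact h rfl
    · rintro rfl
      rw [Function.update_self]
      exact fun h => hq.1 h.symm
  · rintro ⟨i, a⟩ hq ⟨j, b⟩ hq' h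
    simp only [coe_sigma, Set.mem_sigma_iff, mem_coe, mem_filter, mem_univ, true_and] at hq hq'
    simp only at h
    have hij : i = j := by
      by_contra hne
      have h4 := congrFun h i
      rw [Function.update_self, Function.update_of_ne hne] at h4
      exact hq.1 h4
    subst hij
    have h4 := congrFun h i
    rw [Function.update_self, Function.update_self] at h4
    subst h4
    rfl

/-- the two counting bounds -/
lemma bounds {d : ℕ} {U : Finset (Fin n → ZMod 3)} (hU : DegLe d U) :
    2 * n * U.card * 3 ≤ d * U.card * 3 + 2 * n * 3 ^ n ∧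
      4 * n * U.card ≤ d * U.card + 2 * n * 3 ^ n := by
  have h1 : ∑ i : Fin n, ∑ x, T U i x = n * (3 * U.card) := by
    simp_rw [sum_T]
    simp
  have h2 : ∑ i : Fin n, ∑ x, T U i x * T U i x ≤ 3 * (U.card * (n + d)) := by
    simp_rw [sum_T_sq]
    rw [← mul_sum, sum_comm]
    refine Nat.mul_le_mul_left 3 ?_
    rw [← smul_eq_mul]
    exact sum_le_card_nsmul _ _ _ fun y hy => sum_T_le hU hy
  have hcard : ∑ _i : Fin n, ∑ _x : Fin n → ZMod 3, 1 = n * 3 ^ n := by
    simp [ZMod.card]
  have h3 : ∑ i : Fin n, ∑ x, 3 * T U i x ≤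
      ∑ i : Fin n, ∑ x, (T U i x * T U i x + 2 * 1) := by
    refine sum_le_sum fun i _ => sum_le_sum fun x _ => ?_
    have := T_le U i x
    interval_cases (T U i x) <;> omega
  have h4 : ∑ i : Fin n, ∑ x, 5 * T U i x ≤
      ∑ i : Fin n, ∑ x, (T U i x * T U i x + 6 * 1) := by
    refine sum_le_sum fun i _ => sum_le_sum fun x _ => ?_
    have := T_le U i x
    interval_cases (T U i x) <;> omega
  simp_rw [sum_add_distrib, ← mul_sum] at h3 h4
  rw [h1, hcard] at h3 h4
  constructor
  · nlinarith
  · nlinarith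

/-! ### Block sums -/

lemma exists_of_dist {m : ℕ} {x y : Fin m → ZMod 3} (h : hammingDist x y = 1) :
    ∃ i, x i ≠ y i ∧ ∀ j, j ≠ i → x j = y j := by
  unfold hammingDist at h
  obtain ⟨i, hi⟩ := card_eq_one.1 h
  have h1 : i ∈ (univ : Finset (Fin m)).filter fun i => x i ≠ y i := by
    rw [hi]
    exact mem_singleton_self i
  refine ⟨i, (mem_filter.1 h1).2, fun j hj => ?_⟩
  by_contra hne
  have h2 : j ∈ (univ : Finset (Fin m)).filter fun i => x i ≠ y i :=
    mem_filter.2 ⟨mem_univ j, hne⟩
  rw [hi, mem_singleton] at h2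
  exact hj h2

lemma dist_of {m : ℕ} {x y : Fin m → ZMod 3} {i : Fin m} (h : x i ≠ y i)
    (h' : ∀ j, j ≠ i → x j = y j) : hammingDist x y = 1 := by
  unfold hammingDist
  rw [card_eq_one]
  refine ⟨i, ?_⟩
  ext j
  simp only [mem_filter, mem_univ, true_and, mem_singleton]
  constructor
  · intro h1
    by_contra h2
    exact h1 (h' j h2)
  · rintro rfl
    exact h

/-- the block sums -/
def phi {m : ℕ} (blk : Fin n → Fin m) : (Fin n → ZMod 3) →+ (Fin m → ZMod 3) where
  toFun x j := ∑ i, if blk i = j then x i else 0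
  map_zero' := by
    funext j
    simp
  map_add' x y := by
    funext j
    simp only [Pi.add_apply]
    rw [← sum_add_distrib]
    refine sum_congr rfl fun i _ => ?_
    split_ifs <;> simp

lemma phi_apply {m : ℕ} (blk : Fin n → Fin m) (x : Fin n → ZMod 3) (j : Fin m) :
    phi blk x j = ∑ i, if blk i = j then x i else 0 := rfl

lemma phi_sub {m : ℕ} (blk : Fin n → Fin m) {x y : Fin n → ZMod 3} {i : Fin n}
    (h : ∀ j, j ≠ i → x j = y j) (j : Fin m) :
    phi blk y j - phi blk x j = if blk i = j then y i - x i else 0 := by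
  rw [phi_apply, phi_apply, ← sum_sub_distrib]
  rw [sum_eq_single i]
  · split_ifs <;> simp
  · intro l _ hl
    rw [h l hl]
    simp
  · intro hi
    exact absurd (mem_univ i) hi

lemma phi_surj {m : ℕ} (blk : Fin n → Fin m) (hne : ∀ j, ∃ i, blk i = j) :
    Function.Surjective (phi blk) := by
  choose rep hrep using hne
  intro w
  refine ⟨fun l => if l = rep (blk l) then w (blk l) else 0, ?_⟩
  funext j
  rw [phi_apply, sum_eq_single (rep j)]
  · simp [hrep]
  · intro l _ hl
    split_ifs with h1 h2
    · exfalso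
      rw [h1] at h2
      exact hl h2
    · rfl
    · rfl
  · intro hi
    exact absurd (mem_univ _) hi

/-- the preimage of `W` -/
def pre {m : ℕ} (blk : Fin n → Fin m) (W : Finset (Fin m → ZMod 3)) :
    Finset (Fin n → ZMod 3) := univ.filter fun x => phi blk x ∈ W

lemma card_pre {m : ℕ} (blk : Fin n → Fin m) (hne : ∀ j, ∃ i, blk i = j)
    (W : Finset (Fin m → ZMod 3)) : (pre blk W).card * 3 ^ m = W.card * 3 ^ n := by
  have hs := phi_surj blk hne
  have hc : ∀ w w' : Fin m → ZMod 3,
      ((univ : Finset (Fin n → ZMod 3)).filter fun x => phi blk x = w).card =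
      ((univ : Finset (Fin n → ZMod 3)).filter fun x => phi blk x = w').card := fun w w' =>
    AddMonoidHom.card_fiber_eq_of_mem_range (phi blk) (hs w) (hs w')
  have h1 : ∀ W' : Finset (Fin m → ZMod 3), (pre blk W').card =
      W'.card * ((univ : Finset (Fin n → ZMod 3)).filter fun x => phi blk x = 0).card := by
    intro W'
    rw [card_eq_sum_card_fiberwise (f := phi blk) (t := W')]
    · rw [← smul_eq_mul, ← sum_const]
      refine sum_congr rfl fun w hw => ?_
      rw [← hc w 0]
      congr 1
      ext x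
      unfold pre
      simp only [mem_filter, mem_univ, true_and]
      constructor
      · exact fun h => h.2
      · rintro rfl
        exact ⟨hw, rfl⟩
    · intro x hx
      unfold pre at hx
      simpa using hx
  have h2 := h1 univ
  have h3 : (pre blk univ).card = 3 ^ n := by
    unfold pre
    simp [ZMod.card]
  have h4 : (univ : Finset (Fin m → ZMod 3)).card = 3 ^ m := by
    simp [ZMod.card]
  rw [h3, h4] at h2
  rw [h1 W, h2]
  ring

lemma degLe_pre {m δ e : ℕ} (blk : Fin n → Fin m)
    (hblk : ∀ j, ((univ : Finset (Fin n)).filter fun i => blk i = j).card ≤ δ)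
    {W : Finset (Fin m → ZMod 3)} (hW : DegLe e W) : DegLe (δ * e) (pre blk W) := by
  intro x hx
  have hxW : phi blk x ∈ W := by
    unfold pre at hx
    simpa using hx
  set s := (pre blk W).filter fun y => hammingDist x y = 1 with hs
  have himg : s.image (phi blk) ⊆ W.filter fun w => hammingDist (phi blk x) w = 1 := by
    intro w hw
    obtain ⟨y, hy, rfl⟩ := mem_image.1 hw
    rw [hs, mem_filter] at hy
    obtain ⟨i, hi, hi'⟩ := exists_of_dist hy.2
    have h1 : phi blk y ∈ W := by
      have := hy.1
      unfold pre at this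
      simpa using this
    refine mem_filter.2 ⟨h1, dist_of (i := blk i) ?_ ?_⟩
    · intro h2
      have h3 := phi_sub blk hi' (blk i)
      rw [if_pos rfl, h2, sub_self] at h3
      exact hi (sub_eq_zero.1 h3.symm).symm
    · intro j hj
      have h3 := phi_sub blk hi' j
      rw [if_neg (Ne.symm hj)] at h3
      exact (sub_eq_zero.1 h3).symm
  have hfib : ∀ w ∈ s.image (phi blk), (s.filter fun y => phi blk y = w).card ≤ δ := by
    intro w hw
    have hw' := (mem_filter.1 (himg hw)).2
    obtain ⟨j, hj, hj'⟩ := exists_of_dist hw'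
    refine le_trans ?_ (hblk j)
    have hex : ∀ y ∈ s.filter fun y => phi blk y = w,
        ∃ i, blk i = j ∧ (∀ l, l ≠ i → x l = y l) ∧ y i - x i = w j - phi blk x j := by
      intro y hy
      rw [mem_filter, hs, mem_filter] at hy
      obtain ⟨⟨-, hd⟩, hyw⟩ := hy
      obtain ⟨i, hi, hi'⟩ := exists_of_dist hd
      have h3 := phi_sub blk hi' j
      rw [hyw] at h3
      have hbi : blk i = j := by
        by_contra hne
        rw [if_neg hne] at h3
        exact hj (sub_eq_zero.1 h3).symm
      rw [if_pos hbi] at h3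
      exact ⟨i, hbi, hi', h3.symm⟩
    obtain ⟨y0, hy0, -⟩ := mem_image.1 hw
    rw [hs, mem_filter] at hy0
    obtain ⟨i0, -, -⟩ := exists_of_dist hy0.2
    have : Nonempty (Fin n) := ⟨i0⟩
    choose! g hg1 hg2 hg3 using hex
    refine card_le_card_of_injOn g ?_ ?_
    · intro y hy
      exact mem_coe.2 (mem_filter.2 ⟨mem_univ _, hg1 y hy⟩)
    · intro y hy y' hy' hgg
      funext l
      by_cases hl : l = g y
      · subst hl
        have h4 := hg3 y hy
        have h5 := hg3 y' hy'
        rw [← hgg] at h5
        have h6 : y (g y) - x (g y) = y' (g y) - x (g y) := h4.trans h5.symm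
        exact sub_left_injective h6
      · rw [← hg2 y hy l hl]
        rw [hgg] at hl
        exact hg2 y' hy' l hl
  calc s.card ≤ δ * (s.image (phi blk)).card := card_le_mul_card_image s δ hfib
    _ ≤ δ * e := Nat.mul_le_mul_left _ ((card_le_card himg).trans (hW _ hxW))

/-! ### The result -/

lemma bdd (n d : ℕ) :
    BddAbove {k : ℕ | ∃ U : Finset (Fin n → ZMod 3), DegLe d U ∧ U.card = k} := by
  refine ⟨3 ^ n, ?_⟩
  rintro k ⟨U, -, rfl⟩
  refine (card_le_univ U).trans ?_
  simp [ZMod.card]

lemma f_mem (n d : ℕ) : ∃ U : Finset (Fin n → ZMod 3), DegLe d U ∧ U.card = f n d := by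
  have hne : {k : ℕ | ∃ U : Finset (Fin n → ZMod 3), DegLe d U ∧ U.card = k}.Nonempty :=
    ⟨0, ∅, fun x hx => absurd hx (notMem_empty x), rfl⟩
  exact Nat.sSup_mem hne (bdd n d)

lemma f_lower {m δ e : ℕ} (blk : Fin n → Fin m) (hδ : 1 ≤ δ)
    (hblk : ∀ j, ((univ : Finset (Fin n)).filter fun i => blk i = j).card = δ)
    {W : Finset (Fin m → ZMod 3)} (hW : DegLe e W) : W.card * 3 ^ n ≤ f n (δ * e) * 3 ^ m := by
  have hne : ∀ j, ∃ i, blk i = j := by
    intro j
    have h1 : 0 < ((univ : Finset (Fin n)).filter fun i => blk i = j).card := by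
      rw [hblk]; omega
    obtain ⟨i, hi⟩ := card_pos.1 h1
    exact ⟨i, (mem_filter.1 hi).2⟩
  rw [← card_pre blk hne W]
  refine Nat.mul_le_mul_right _ ?_
  exact le_csSup (bdd n (δ * e)) ⟨pre blk W, degLe_pre blk (fun j => (hblk j).le) hW, rfl⟩

/-- The counting bounds `(2n - d) f(n,d) ≤ 2n 3^(n-1)` and `(4n - d) f(n,d) ≤ 2n 3^n`, and the
exact values `f(n,n) = 2 * 3^(n-1)` and `f(2d,d) = 4 * 3^(2d-2)`. -/
theorem result :
    (∀ n d : ℕ, 1 ≤ n → 2 * n * f n d ≤ d * f n d + 2 * n * 3 ^ (n - 1)) ∧
    (∀ n d : ℕ, 4 * n * f n d ≤ d * f n d + 2 * n * 3 ^ n) ∧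
    (∀ n : ℕ, 1 ≤ n → f n n = 2 * 3 ^ (n - 1)) ∧
    (∀ d : ℕ, 1 ≤ d → f (2 * d) d = 4 * 3 ^ (2 * d - 2)) := by
  have hA : ∀ n d : ℕ, 1 ≤ n → 2 * n * f n d ≤ d * f n d + 2 * n * 3 ^ (n - 1) := by
    intro n d hn
    obtain ⟨U, hU, hc⟩ := f_mem n d
    have h := (bounds hU).1
    rw [hc] at h
    obtain ⟨k, rfl⟩ : ∃ k, n = k + 1 := ⟨n - 1, by omega⟩
    rw [Nat.add_sub_cancel]
    rw [pow_succ] at h
    nlinarith
  refine ⟨hA, ?_, ?_, ?_⟩
  · intro n d
    obtain ⟨U, hU, hc⟩ := f_mem n d
    have h := (bounds hU).2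
    rwa [hc] at h
  · intro n hn
    refine le_antisymm ?_ ?_
    · have h := hA n n hn
      have h2 : n * f n n ≤ n * (2 * 3 ^ (n - 1)) := by nlinarith
      exact Nat.le_of_mul_le_mul_left h2 hn
    · have hW : DegLe 1 ({![1], ![2]} : Finset (Fin 1 → ZMod 3)) := by
        unfold DegLe
        decide
      have h := f_lower (n := n) (δ := n) (fun _ => (0 : Fin 1)) hn (fun j => by
        have : j = 0 := Subsingleton.elim _ _
        subst this
        simp) hW
      rw [mul_one] at h
      have hWc : ({![1], ![2]} : Finset (Fin 1 → ZMod 3)).card = 2 := by decide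
      rw [hWc] at h
      obtain ⟨k, rfl⟩ : ∃ k, n = k + 1 := ⟨n - 1, by omega⟩
      rw [Nat.add_sub_cancel]
      rw [pow_succ] at h
      omega
  · intro d hd
    refine le_antisymm ?_ ?_
    · have h := hA (2 * d) d (by omega)
      obtain ⟨k, rfl⟩ : ∃ k, d = k + 1 := ⟨d - 1, by omega⟩
      have e1 : 2 * (k + 1) - 1 = 2 * k + 1 := by omega
      have e2 : 2 * (k + 1) - 2 = 2 * k := by omega
      rw [e1, pow_succ] at h
      rw [e2]
      have h2 : (k + 1) * (3 * f (2 * (k + 1)) (k + 1)) ≤ (k + 1) * (3 * (4 * 3 ^ (2 * k))) := by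
        nlinarith
      have h3 := Nat.le_of_mul_le_mul_left h2 (by omega)
      omega
    · have hW : DegLe 1 ({![0, 0], ![0, 1], ![1, 2], ![2, 2]} : Finset (Fin 2 → ZMod 3)) := by
        unfold DegLe
        decide
      have hcard0 : ((univ : Finset (Fin (2 * d))).filter fun i => i.val < d).card = d := by
        have h1 : ((univ : Finset (Fin (2 * d))).filter fun i => i.val < d).card =
            (range d).card := by
          refine card_bij (fun i _ => i.val) ?_ ?_ ?_
          · intro i hi
            exact mem_range.2 (mem_filter.1 hi).2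
          · intro i _ j _ h
            exact Fin.ext h
          · intro b hb
            rw [mem_range] at hb
            exact ⟨⟨b, by omega⟩, mem_filter.2 ⟨mem_univ _, hb⟩, rfl⟩
        rw [h1, card_range]
      have hcard1 : ((univ : Finset (Fin (2 * d))).filter fun i => ¬ i.val < d).card = d := by
        have h1 := card_filter_add_card_filter_not (s := (univ : Finset (Fin (2 * d))))
          (fun i => i.val < d)
        rw [hcard0, card_univ, Fintype.card_fin] at h1
        omega
      have h := f_lower (n := 2 * d) (δ := d)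
        (fun i => if i.val < d then (0 : Fin 2) else 1) hd (fun j => by
          rcases Fin.exists_fin_two.1 ⟨j, rfl⟩ with h0 | h0
          · subst h0
            have h2 : ((univ : Finset (Fin (2 * d))).filter
                fun i => (if i.val < d then (0 : Fin 2) else 1) = 0) =
                (univ : Finset (Fin (2 * d))).filter fun i => i.val < d := by
              ext i
              simp
            rw [h2]
            exact hcard0
          · subst h0
            have h2 : ((univ : Finset (Fin (2 * d))).filter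
                fun i => (if i.val < d then (0 : Fin 2) else 1) = 1) =
                (univ : Finset (Fin (2 * d))).filter fun i => ¬ i.val < d := by
              ext i
              simp
            rw [h2]
            exact hcard1) hW
      rw [mul_one] at h
      have hWc : ({![0, 0], ![0, 1], ![1, 2], ![2, 2]} : Finset (Fin 2 → ZMod 3)).card = 4 := by
        decide
      rw [hWc] at h
      obtain ⟨k, rfl⟩ : ∃ k, d = k + 1 := ⟨d - 1, by omega⟩
      have e2 : 2 * (k + 1) - 2 = 2 * k := by omega
      have e3 : 3 ^ (2 * (k + 1)) = 9 * 3 ^ (2 * k) := by ring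
      rw [e2]
      rw [e3] at h
      omega

end Pool.Agent.Results.MP_e7dccd_co.CountingBounds
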